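import Mathlib

/-!
# The sum `∑_{k<p} C(2k,k) T_{2k}(4,-3) / 16^k` modulo `p^2`

The conjectured value of this sum modulo `p^2` for `p ≡ 1 (mod 3)` is wrong: it fails for `p = 7`
and for `p = 13`.
-/

open Finset

namespace Pool.Agent.Results.MP_b67006_nt.SecondSumFails

/-- The generalized central trinomial coefficient
`T_n(b,c) = ∑_{j ≤ n/2} C(n,2j) C(2j,j) b^(n-2j) c^j`. -/
def T (n : ℕ) (b c : ℤ) : ℤ :=
  ∑ j ∈ range (n / 2 + 1), (n.choose (2 * j) : ℤ) * ((2 * j).choose j : ℤ) *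
    b ^ (n - 2 * j) * c ^ j

/-- `S_p = ∑_{k ≤ (p-1)/2} C(2k,k) T_{2k}(2,3) / 16^k`. -/
def S (p : ℕ) : ℚ :=
  ∑ k ∈ range ((p - 1) / 2 + 1), ((2 * k).choose k : ℚ) / 16 ^ k * (T (2 * k) 2 3 : ℚ)

/-- `S'_p = ∑_{k ≤ p-1} C(2k,k) T_{2k}(4,-3) / 16^k`. -/
def S' (p : ℕ) : ℚ :=
  ∑ k ∈ range p, ((2 * k).choose k : ℚ) / 16 ^ k * (T (2 * k) 4 (-3) : ℚ)

/-- Congruence of rational numbers modulo `p^m`: the difference is `p^m` times a rational number
whose denominator is prime to `p`. -/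
def Congr (p m : ℕ) (a b : ℚ) : Prop := ∃ c : ℚ, ¬ p ∣ c.den ∧ a - b = (p : ℚ) ^ m * c

theorem not_congr (p m : ℕ) (hp : p.Prime) (a b : ℚ) (D N : ℤ) (h : (D : ℚ) * (a - b) = N)
    (hN : ¬ (p : ℤ) ^ m ∣ N) : ¬ Congr p m a b := by
  rintro ⟨c, hc, hab⟩
  apply hN
  rw [hab] at h
  have hc0 : (c.den : ℚ) ≠ 0 := by exact_mod_cast c.den_nz
  have h1 : (N : ℚ) * c.den = (D : ℚ) * (p : ℚ) ^ m * c.num := by
    rw [← h]
    have h2 : c * c.den = c.num := Rat.mul_den_eq_num c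
    calc (D : ℚ) * ((p : ℚ) ^ m * c) * c.den = (D : ℚ) * (p : ℚ) ^ m * (c * c.den) := by ring
      _ = _ := by rw [h2]
  have h3 : N * (c.den : ℤ) = D * (p : ℤ) ^ m * c.num := by exact_mod_cast h1
  have h4 : (p : ℤ) ^ m ∣ N * (c.den : ℤ) := by
    rw [h3]; exact ⟨D * c.num, by ring⟩
  have h5 : IsCoprime ((p : ℤ) ^ m) (c.den : ℤ) := by
    apply IsCoprime.pow_left
    rw [Nat.isCoprime_iff_coprime]
    exact (hp.coprime_iff_not_dvd).2 hc
  exact h5.dvd_of_dvd_mul_right h4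

/-- The conjectured value in part (a): `(-1/p) (2x - p/(2x))`. -/
def rhs (p : ℕ) (x : ℤ) : ℚ := (-1) ^ ((p - 1) / 2) * (2 * (x : ℚ) - (p : ℚ) / (2 * x))

/-- Part (a) for the prime `p` and the integer `x`. -/
def PartA (p : ℕ) (x : ℤ) : Prop := Congr p 2 (S p) (S' p) ∧ Congr p 2 (S' p) (rhs p x)

/-- Part (b) for the prime `p`. -/
def PartB (p : ℕ) : Prop := Congr p 1 (S p) (S' p) ∧ Congr p 1 (S' p) 0

theorem S'_seven : S' 7 = -781639815 / 1048576 := by
  have h0 : T (2 * 0) 4 (-3) = 1 := by decide +kernel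
  have h1 : T (2 * 1) 4 (-3) = 10 := by decide +kernel
  have h2 : T (2 * 2) 4 (-3) = -266 := by decide +kernel
  have h3 : T (2 * 3) 4 (-3) = -6524 := by decide +kernel
  have h4 : T (2 * 4) 4 (-3) = 108838 := by decide +kernel
  have h5 : T (2 * 5) 4 (-3) = 4793260 := by decide +kernel
  have h6 : T (2 * 6) 4 (-3) = -35910980 := by decide +kernel
  unfold S'
  simp only [Finset.sum_range_succ, Finset.sum_range_zero, h0, h1, h2, h3, h4, h5, h6]
  norm_num [Nat.choose]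

theorem S'_thirteen : S' 13 = -5323447200086258391455 / 17592186044416 := by
  have h0 : T (2 * 0) 4 (-3) = 1 := by decide +kernel
  have h1 : T (2 * 1) 4 (-3) = 10 := by decide +kernel
  have h2 : T (2 * 2) 4 (-3) = -266 := by decide +kernel
  have h3 : T (2 * 3) 4 (-3) = -6524 := by decide +kernel
  have h4 : T (2 * 4) 4 (-3) = 108838 := by decide +kernel
  have h5 : T (2 * 5) 4 (-3) = 4793260 := by decide +kernel
  have h6 : T (2 * 6) 4 (-3) = -35910980 := by decide +kernel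
  have h7 : T (2 * 7) 4 (-3) = -3462895160 := by decide +kernel
  have h8 : T (2 * 8) 4 (-3) = -1212612602 := by decide +kernel
  have h9 : T (2 * 9) 4 (-3) = 2394999726364 := by decide +kernel
  have h10 : T (2 * 10) 4 (-3) = 18949159882324 := by decide +kernel
  have h11 : T (2 * 11) 4 (-3) = -1558796189381960 := by decide +kernel
  have h12 : T (2 * 12) 4 (-3) = -25494339842949284 := by decide +kernel
  unfold S'
  simp only [Finset.sum_range_succ, Finset.sum_range_zero, h0, h1, h2, h3, h4, h5, h6, h7, h8, h9,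
    h10, h11, h12]
  norm_num [Nat.choose]

theorem fail_seven : ¬ Congr 7 2 (S' 7) (rhs 7 (-2)) := by
  refine not_congr 7 2 (by norm_num) _ _ 1048576 (-783999111) ?_ (by norm_num)
  rw [S'_seven]
  norm_num [rhs]

theorem fail_thirteen : ¬ Congr 13 2 (S' 13) (rhs 13 1) := by
  refine not_congr 13 2 (by norm_num) _ _ 17592186044416 (-5323447120921421191583) ?_
    (by norm_num)
  rw [S'_thirteen]
  norm_num [rhs]

/-- The congruence for `S'_p` in part (a) fails at `p = 7` (`x = -2`) and at `p = 13` (`x = 1`),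
so that Question 1 has a negative answer. -/
theorem result :
    (¬ Congr 7 2 (S' 7) (rhs 7 (-2)) ∧ ¬ Congr 13 2 (S' 13) (rhs 13 1)) ∧
    ¬ ∀ p : ℕ, p.Prime → 3 < p →
      (p % 3 = 1 → ∀ x y : ℤ, (p : ℤ) = x ^ 2 + 3 * y ^ 2 → x % 3 = 1 → PartA p x) ∧
      (p % 3 = 2 → PartB p) := by
  refine ⟨⟨fail_seven, fail_thirteen⟩, ?_⟩
  intro h
  exact fail_seven ((h 7 (by norm_num) (by norm_num)).1 (by norm_num) (-2) 1 (by norm_num)
    (by norm_num)).2

end Pool.Agent.Results.MP_b67006_nt.SecondSumFails
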